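import Pool.Agent.Helper10.RC.Basic

/-!
# MP_b55b7c_an: the action is implemented by unitaries
-/

open scoped ENNReal NNReal InnerProductSpace ComplexOrder
open Filter Topology

attribute [-instance] CStarMatrix.instAlgebra CStarMatrix.instModule CStarMatrix.instSMul
  CStarMatrix.instMulAction CStarMatrix.instDistribMulAction

set_option linter.unusedSectionVars false

noncomputable section
namespace RC
universe u

theorem impP : ImpP.{u} := by
  intro A _ _ _ φ G _ _ α H _ _ _ π ρ ξ hR hα hφ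
  -- inner products
  have hin : ∀ a b : A, ⟪π a ξ, π b ξ⟫_ℂ = φ.φ (star a * b) := by
    intro a b
    rw [← hR.inner, map_mul, map_star]
    change _ = ⟪ξ, (star (π a)) ((π b) ξ)⟫_ℂ
    rw [ContinuousLinearMap.star_eq_adjoint, ContinuousLinearMap.adjoint_inner_right]
  have hα1 : ∀ a, α 1 a = a := by
    intro a
    have h1 := hα 1 1 a
    rw [one_mul] at h1
    exact ((α 1).injective h1).symm
  have hnorm : ∀ (g : G) (a : A), ‖π (α g a) ξ‖ = ‖π a ξ‖ := by
    intro g a
    have h1 : ⟪π (α g a) ξ, π (α g a) ξ⟫_ℂ = ⟪π a ξ, π a ξ⟫_ℂ := by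
      rw [hin, hin, ← map_star, ← map_mul, hφ]
    rw [inner_self_eq_norm_sq_to_K, inner_self_eq_norm_sq_to_K] at h1
    have h2 : ‖π (α g a) ξ‖ ^ 2 = ‖π a ξ‖ ^ 2 := by exact_mod_cast h1
    exact (sq_eq_sq₀ (norm_nonneg _) (norm_nonneg _)).mp h2
  -- the linear maps
  set T : A →ₗ[ℂ] H :=
    { toFun := fun a => π a ξ
      map_add' := fun a b => by rw [map_add]; rfl
      map_smul' := fun c a => by rw [map_smul]; rfl } with hT
  set F : G → (A →ₗ[ℂ] H) := fun g =>
    { toFun := fun a => π (α g a) ξ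
      map_add' := fun a b => by rw [map_add, map_add]; rfl
      map_smul' := fun c a => by rw [map_smul, map_smul]; rfl } with hF
  have hTd : DenseRange T := hR.dense
  set U : G → (H →L[ℂ] H) := fun g => (F g).extendOfNorm T with hU
  have hUapp : ∀ g a, U g (π a ξ) = π (α g a) ξ := by
    intro g a
    exact LinearMap.extendOfNorm_eq hTd ⟨1, fun x => by
      rw [one_mul]; exact (hnorm g x).le⟩ a
  -- equality on the dense subspace
  have hext : ∀ P Q : H →L[ℂ] H, (∀ a, P (π a ξ) = Q (π a ξ)) → P = Q := by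
    intro P Q hPQ
    apply ContinuousLinearMap.ext
    intro x
    exact congrFun (hTd.equalizer P.continuous Q.continuous (funext hPQ)) x
  refine ⟨U, hUapp, ?_, ?_, ?_, ?_⟩
  · intro g
    apply hext
    intro a
    rw [hUapp, ContinuousLinearMap.star_eq_adjoint]
    refine ext_inner_right ℂ (fun y => ?_)
    have hcl : ∀ y, ⟪(ContinuousLinearMap.adjoint (U g)) (π a ξ), y⟫_ℂ =
        ⟪π (α g⁻¹ a) ξ, y⟫_ℂ := by
      intro y
      have hc1 : Continuous (fun y => ⟪(ContinuousLinearMap.adjoint (U g)) (π a ξ), y⟫_ℂ) := by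
        fun_prop
      have hc2 : Continuous (fun y => ⟪π (α g⁻¹ a) ξ, y⟫_ℂ) := by fun_prop
      refine congrFun (hTd.equalizer hc1 hc2 (funext fun b => ?_)) y
      change ⟪(ContinuousLinearMap.adjoint (U g)) (π a ξ), π b ξ⟫_ℂ = ⟪π (α g⁻¹ a) ξ, π b ξ⟫_ℂ
      have e5 : α g (star (α g⁻¹ a) * b) = star a * α g b := by
        rw [map_mul, map_star, ← hα, mul_inv_cancel, hα1]
      rw [ContinuousLinearMap.adjoint_inner_left, hUapp, hin, hin, ← hφ g (star (α g⁻¹ a) * b),
        e5]
    exact hcl y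
  · intro g h
    apply hext
    intro a
    change U (g * h) (π a ξ) = U g (U h (π a ξ))
    rw [hUapp, hUapp, hUapp, hα]
  · apply hext
    intro a
    rw [hUapp, hα1]
    rfl
  · intro g a
    apply hext
    intro b
    have hm : ∀ x y : A, π x (π y ξ) = π (x * y) ξ := by
      intro x y
      rw [map_mul]
      rfl
    change U g (π a (π b ξ)) = π (α g a) (U g (π b ξ))
    rw [hm, hUapp, hUapp, hm, map_mul]

end RC
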