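import Pool.Agent.Helper10.RC.Basic

/-!
# MP_b55b7c_an: the homomorphism from matrices over `A` to matrices over the fixed point algebra
-/

open scoped ENNReal NNReal InnerProductSpace ComplexOrder
open Filter Topology

attribute [-instance] CStarMatrix.instAlgebra CStarMatrix.instModule CStarMatrix.instSMul
  CStarMatrix.instMulAction CStarMatrix.instDistribMulAction

set_option linter.unusedSectionVars false

noncomputable section
namespace RC
universe u

/-- the conditional expectation -/
def avg50 {A : Type u} [CStarAlgebra A] {G : Type} [Fintype G] (α : G → A ≃⋆ₐ[ℂ] A) (x : A) : A :=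
  (Fintype.card G : ℂ)⁻¹ • ∑ g, α g x

section avg
variable {A : Type u} [CStarAlgebra A] {G : Type} [Group G] [Fintype G] (α : G → A ≃⋆ₐ[ℂ] A)

theorem avg50_inv (hα : IsAct α) (h : G) (x : A) : α h (avg50 α x) = avg50 α x := by
  unfold avg50
  rw [map_smul, map_sum]
  congr 1
  rw [← Equiv.sum_comp (Equiv.mulLeft h) (fun g => α g x)]
  refine Finset.sum_congr rfl (fun g _ => ?_)
  rw [Equiv.coe_mulLeft, hα]

theorem avg50_of_inv (x : A) (hx : ∀ g, α g x = x) : avg50 α x = x := by
  unfold avg50
  simp only [hx, Finset.sum_const, Finset.card_univ]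
  rw [← Nat.cast_smul_eq_nsmul ℂ, smul_smul, inv_mul_cancel₀, one_smul]
  exact_mod_cast (Fintype.card_ne_zero : Fintype.card G ≠ 0)

theorem avg50_add (x y : A) : avg50 α (x + y) = avg50 α x + avg50 α y := by
  unfold avg50
  simp only [map_add, Finset.sum_add_distrib, smul_add]

theorem avg50_sum {ι : Type} (s : Finset ι) (f : ι → A) :
    avg50 α (∑ i ∈ s, f i) = ∑ i ∈ s, avg50 α (f i) := by
  unfold avg50
  simp only [map_sum, Finset.smul_sum]
  rw [Finset.sum_comm]

theorem avg50_csmul (c : ℂ) (x : A) : avg50 α (c • x) = c • avg50 α x := by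
  unfold avg50
  simp only [map_smul, ← Finset.smul_sum]
  rw [smul_comm]

theorem avg50_star (x : A) : avg50 α (star x) = star (avg50 α x) := by
  unfold avg50
  rw [star_smul, star_sum]
  simp only [map_star]
  congr 1
  simp

/-- `E(x b) = E(x) b` for invariant `b` -/
theorem avg50_mul_right (x b : A) (hb : ∀ g, α g b = b) : avg50 α (x * b) = avg50 α x * b := by
  unfold avg50
  rw [smul_mul_assoc, Finset.sum_mul]
  simp only [map_mul, hb]

end avg

/-- the key identity -/
theorem key50 {A : Type u} [CStarAlgebra A] {G : Type} [Group G] [Fintype G]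
    (α : G → A ≃⋆ₐ[ℂ] A) (m : ℕ) (c : Fin m → A) (z : G → A)
    (h1 : ∀ g, z g = (Fintype.card G : ℂ)⁻¹ • ∑ i, c i * α g (star (c i)))
    (h2 : ∀ (x : A) (g : G), x * z g = z g * α g x) (h3 : ∑ g, z g = 1) (y : A) :
    ∑ l, c l * avg50 α (star (c l) * y) = y := by
  calc ∑ l, c l * avg50 α (star (c l) * y)
      = ∑ l, ∑ g, (Fintype.card G : ℂ)⁻¹ • (c l * α g (star (c l)) * α g y) := by
        refine Finset.sum_congr rfl (fun l _ => ?_)
        unfold avg50
        rw [mul_smul_comm, Finset.mul_sum, Finset.smul_sum]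
        refine Finset.sum_congr rfl (fun g _ => ?_)
        rw [map_mul, mul_assoc]
    _ = ∑ g, ∑ l, (Fintype.card G : ℂ)⁻¹ • (c l * α g (star (c l)) * α g y) := Finset.sum_comm
    _ = ∑ g, z g * α g y := by
        refine Finset.sum_congr rfl (fun g _ => ?_)
        rw [h1 g, smul_mul_assoc, Finset.sum_mul, Finset.smul_sum]
    _ = ∑ g, y * z g := Finset.sum_congr rfl (fun g _ => (h2 y g).symm)
    _ = y := by rw [← Finset.mul_sum, h3, mul_one]

theorem key50' {A : Type u} [CStarAlgebra A] {G : Type} [Group G] [Fintype G]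
    (α : G → A ≃⋆ₐ[ℂ] A) (hα : IsAct α) (m : ℕ) (c : Fin m → A) (z : G → A)
    (h1 : ∀ g, z g = (Fintype.card G : ℂ)⁻¹ • ∑ i, c i * α g (star (c i)))
    (h2 : ∀ (x : A) (g : G), x * z g = z g * α g x) (h3 : ∑ g, z g = 1) (x y : A) :
    ∑ l, avg50 α (x * c l) * avg50 α (star (c l) * y) = avg50 α (x * y) := by
  calc ∑ l, avg50 α (x * c l) * avg50 α (star (c l) * y)
      = ∑ l, avg50 α (x * (c l * avg50 α (star (c l) * y))) := by
        refine Finset.sum_congr rfl (fun l _ => ?_)
        rw [← avg50_mul_right α _ _ (fun g => avg50_inv α hα g _), mul_assoc]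
    _ = avg50 α (x * ∑ l, c l * avg50 α (star (c l) * y)) := by
        rw [← avg50_sum, Finset.mul_sum]
    _ = avg50 α (x * y) := by rw [key50 α m c z h1 h2 h3 y]

theorem sB1P (h : SL2P.{u}) : SB1P.{u} := by
  intro A _ _ _ B _ _ _ G _ _ α j hα hfix hS
  obtain ⟨m, c, z, h1, h2, h3⟩ := h A G α hα hS
  have hch : ∀ x : A, ∃ b, j b = avg50 α x := fun x =>
    (hfix.2 (avg50 α x)).mp (fun g => avg50_inv α hα g x)
  choose e he using hch
  have hinj := hfix.1
  have hkey := key50' α hα m c z h1 h2 h3
  -- properties of `e`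
  have e_add : ∀ x y, e (x + y) = e x + e y := fun x y => hinj (by
    rw [map_add, he, he, he, avg50_add])
  have e_star : ∀ x, e (star x) = star (e x) := fun x => hinj (by
    rw [map_star, he, he, avg50_star])
  have e_smul : ∀ (r : ℝ) x, e (r • x) = r • e x := fun r x => hinj (by
    have h5 : j (r • e x) = r • j (e x) := by
      rw [← Complex.coe_smul, ← Complex.coe_smul, map_smul]
    rw [h5, he, he, ← Complex.coe_smul, avg50_csmul, Complex.coe_smul])
  have e_mul : ∀ x y, ∑ l, e (x * c l) * e (star (c l) * y) = e (x * y) := fun x y => hinj (by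
    rw [map_sum]
    simp only [map_mul, he]
    exact hkey x y)
  have e_sum : ∀ (ι : Type) (s : Finset ι) (f : ι → A), e (∑ i ∈ s, f i) = ∑ i ∈ s, e (f i) :=
    fun ι s f => hinj (by
      rw [map_sum]
      simp only [he]
      exact avg50_sum α s f)
  have e_j : ∀ b : B, e (j b) = b := fun b => hinj (by
    rw [he]
    exact avg50_of_inv α _ ((hfix.2 (j b)).mpr ⟨b, rfl⟩))
  refine ⟨m, fun ι κ x => CStarMatrix.ofMatrix (Matrix.of fun p q =>
      e (star (c p.2) * x p.1 q.1 * c q.2)),
    fun κ _ => CStarMatrix.ofMatrix (Matrix.of fun i p => if i = p.1 then e (c p.2) else 0),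
    ?_, ?_, ?_, ?_, ?_⟩
  · intro ι κ μ _ x y
    ext ⟨i, k⟩ ⟨i', r⟩
    rw [CStarMatrix.mul_apply, Fintype.sum_prod_type]
    change e (star (c k) * (x * y) i i' * c r) =
      ∑ i'', ∑ l, e (star (c k) * x i i'' * c l) * e (star (c l) * y i'' i' * c r)
    rw [CStarMatrix.mul_apply, Finset.mul_sum, Finset.sum_mul, e_sum]
    refine Finset.sum_congr rfl (fun i'' _ => ?_)
    have := e_mul (star (c k) * x i i'') (y i'' i' * c r)
    simp only [← mul_assoc] at this ⊢
    exact this.symm
  · intro ι κ x
    ext ⟨i, k⟩ ⟨i', r⟩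
    change e (star (c k) * star (x i' i) * c r) = star (e (star (c r) * x i' i * c k))
    rw [← e_star]
    congr 1
    simp only [star_mul, star_star, mul_assoc]
  · intro ι κ x y
    ext ⟨i, k⟩ ⟨i', r⟩
    change e (star (c k) * (x i i' + y i i') * c r) =
      e (star (c k) * x i i' * c r) + e (star (c k) * y i i' * c r)
    rw [← e_add, mul_add, add_mul]
  · intro ι κ _ _ r x
    ext ⟨i, k⟩ ⟨i', l⟩
    change e (star (c k) * (r • x i i') * c l) = r • e (star (c k) * x i i' * c l)
    rw [← e_smul, mul_smul_comm, smul_mul_assoc]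
  · intro κ _ _ x
    ext i i'
    rw [CStarMatrix.mul_apply, Fintype.sum_prod_type]
    change ∑ a, ∑ l, (CStarMatrix.ofMatrix (Matrix.of fun (i : κ) (p : κ × Fin m) =>
        if i = p.1 then e (c p.2) else 0) * CStarMatrix.ofMatrix
        (Matrix.of fun (p q : κ × Fin m) => e (star (c p.2) * j (x p.1 q.1) * c q.2)) :
          CStarMatrix κ (κ × Fin m) B) i (a, l) *
        star (if i' = a then e (c l) else 0) = x i i'
    have hin : ∀ a l, (CStarMatrix.ofMatrix (Matrix.of fun (i : κ) (p : κ × Fin m) =>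
        if i = p.1 then e (c p.2) else 0) * CStarMatrix.ofMatrix
        (Matrix.of fun (p q : κ × Fin m) => e (star (c p.2) * j (x p.1 q.1) * c q.2)) :
          CStarMatrix κ (κ × Fin m) B) i (a, l) = e (j (x i a) * c l) := by
      intro a l
      rw [CStarMatrix.mul_apply, Fintype.sum_prod_type]
      change ∑ b, ∑ k, (if i = b then e (c k) else 0) * e (star (c k) * j (x b a) * c l) =
        e (j (x i a) * c l)
      rw [Finset.sum_eq_single i]
      · simp only [if_true]
        have := e_mul 1 (j (x i a) * c l)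
        simp only [one_mul, ← mul_assoc] at this
        exact this
      · intro b _ hb
        simp [Ne.symm hb]
      · intro hi; exact absurd (Finset.mem_univ _) hi
    simp only [hin]
    rw [Finset.sum_eq_single i']
    · simp only [if_true]
      have := e_mul (j (x i i')) 1
      simp only [mul_one, e_star, e_j] at this
      exact this
    · intro b _ hb
      simp [Ne.symm hb]
    · intro hi; exact absurd (Finset.mem_univ _) hi

end RC
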